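import Pool.Agent.MWGR.StmtsD

/-!
# Row NTC of the table mwgr (the order of two light letters, the core)
-/

namespace Pool.Agent.MWGR.H1

open Pool.Agent.Helper14_MV Pool.Agent.Helper2_MV Pool.Agent.MVO Pool.Agent.MWL Pool.Agent.MWS
  Pool.Agent.MWH

theorem ntc_meq {n A B K : ℕ} (h : A = B + n * K) : A ≡ B [MOD n] := by
  subst h
  unfold Nat.ModEq
  rw [Nat.add_mul_mod_self_left]

theorem ntc_rep1 {g : ℕ → List ℕ} {c d : ℕ} (h : g c = [d]) (k : ℕ) :
    (List.replicate k c).flatMap g = List.replicate k d := by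
  induction k with
  | zero => rfl
  | succ k ih => rw [List.replicate_succ, List.flatMap_cons, ih, h]; rfl

theorem ntc_rep0 {g : ℕ → List ℕ} {c : ℕ} (h : g c = []) (k : ℕ) :
    (List.replicate k c).flatMap g = [] := by
  induction k with
  | zero => rfl
  | succ k ih => rw [List.replicate_succ, List.flatMap_cons, ih, h]; rfl

/-- `T0` with one letter kept -/
theorem ntc_T {g : ℕ → List ℕ} {a : ℕ} (ha : g a = [1]) : ∀ {T : List ℕ},
    (∀ c ∈ T, c ≠ a → g c = []) → T.flatMap g = List.replicate (T.count a) 1 := by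
  intro T
  induction T with
  | nil => intro _; rfl
  | cons c T ih =>
    intro h
    rw [List.flatMap_cons, ih (fun d hd => h d (List.mem_cons_of_mem _ hd)), List.count_cons]
    by_cases hc : c = a
    · rw [hc, ha, if_pos (by simp), Nat.add_comm, List.replicate_add]
      rfl
    · rw [h c List.mem_cons_self hc, if_neg (by simpa using hc)]
      rfl

theorem ntc_nil {g : ℕ → List ℕ} {T : List ℕ} (h : ∀ c ∈ T, g c = []) : T.flatMap g = [] := by
  induction T with
  | nil => rfl
  | cons c T ih =>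
    rw [List.flatMap_cons, ih (fun d hd => h d (List.mem_cons_of_mem _ hd)),
      h c List.mem_cons_self]
    rfl

theorem ntc_id {g : ℕ → List ℕ} {T : List ℕ} (h : ∀ c ∈ T, g c = [c]) : T.flatMap g = T := by
  induction T with
  | nil => rfl
  | cons c T ih =>
    rw [List.flatMap_cons, ih (fun d hd => h d (List.mem_cons_of_mem _ hd)),
      h c List.mem_cons_self]
    rfl

/-- the word `X s u X t v X r 3 T` -/
def nw (u v s t r : ℕ) (T : List ℕ) : List ℕ := X s ++ u :: (X t ++ v :: (X r ++ 3 :: T))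

theorem ntc_flat {g : ℕ → List ℕ} (u v s t r : ℕ) (T : List ℕ) :
    (nw u v s t r T).flatMap g = (X s).flatMap g ++ (g u ++ ((X t).flatMap g ++ (g v ++
      ((X r).flatMap g ++ (g 3 ++ T.flatMap g))))) := by
  unfold nw
  simp only [List.flatMap_append, List.flatMap_cons]

/-- exponents modulo `n` -/
theorem ntc_norm (hE : ExgStmt) {n : ℕ} {θ : FIC} (hB : BG n (RR θ)) {u v : ℕ} {T : List ℕ}
    (hu : u ∈ T) (hv : v ∈ T) (huv : u ≠ v) (hu0 : u ≠ 0) (hv0 : v ≠ 0) (hu3 : u ≠ 3)
    (hv3 : v ≠ 3) {s t r s' t' r' : ℕ} (hs : 1 ≤ s) (hs' : 1 ≤ s') (hr : 1 ≤ r) (hr' : 1 ≤ r')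
    (h1 : s ≡ s' [MOD n]) (h2 : t ≡ t' [MOD n]) (h3 : r ≡ r' [MOD n]) :
    RR θ (nw u v s t r T) (nw u v s' t' r' T) := by
  have cu : ∀ A B : List ℕ, 2 ≤ (A ++ u :: (B ++ T)).count u := by
    intro A B
    have : 0 < T.count u := List.count_pos_iff.2 hu
    simp only [List.count_append, List.count_cons_self]
    omega
  have cv : ∀ A B : List ℕ, 2 ≤ (A ++ v :: (B ++ T)).count v := by
    intro A B
    have : 0 < T.count v := List.count_pos_iff.2 hv
    simp only [List.count_append, List.count_cons_self]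
    omega
  obtain ⟨r0, rfl⟩ : ∃ r0, r = r0 + 1 := ⟨r - 1, by omega⟩
  obtain ⟨s0, hs0⟩ : ∃ s0, s' = s0 + 1 := ⟨s' - 1, by omega⟩
  -- left exponent
  have a1 : RR θ (nw u v s t (r0 + 1) T) (nw u v s' t (r0 + 1) T) := by
    have := (hE n θ hB [] (u :: (X t ++ v :: (X (r0 + 1) ++ 3 :: T))) 0 s s' h1).2.2.2
      (u :: (X t ++ [v])) (X r0 ++ 3 :: T) (by
        unfold X
        rw [List.replicate_succ]
        simp) hs hs' (by
        intro c hc hc0
        simp only [List.mem_cons, List.mem_append, List.not_mem_nil, or_false] at hc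
        rcases hc with hc | hc | hc
        · subst hc
          have := cu [] (X t ++ v :: (X (r0 + 1) ++ [3]))
          simpa using this
        · exact absurd (List.eq_of_mem_replicate hc) hc0
        · subst hc
          have := cv (u :: X t) (X (r0 + 1) ++ [3])
          simpa using this)
    exact this
  have a2 : RR θ (nw u v s' t (r0 + 1) T) (nw u v s' t' (r0 + 1) T) := by
    have := (hE n θ hB (X s' ++ [u]) (v :: (X (r0 + 1) ++ 3 :: T)) 0 t t' h2).2.2.1
      (X s0) [u] [v] (X r0 ++ 3 :: T) (by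
        unfold X
        rw [hs0, List.replicate_succ']
        simp) (by
        unfold X
        rw [List.replicate_succ]
        simp) (by
        intro c hc
        rcases hc with hc | hc
        · rw [List.mem_singleton] at hc
          subst hc
          have := cu (X s') (v :: (X (r0 + 1) ++ [3]))
          simpa using this
        · rw [List.mem_singleton] at hc
          subst hc
          have := cv (X s' ++ [u]) (X (r0 + 1) ++ [3])
          simpa using this)
    have e : ∀ k, (X s' ++ [u]) ++ (List.replicate k 0 ++ (v :: (X (r0 + 1) ++ 3 :: T))) =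
        nw u v s' k (r0 + 1) T := by
      intro k
      unfold nw
      simp
    rw [e, e] at this
    exact this
  have a3 : RR θ (nw u v s' t' (r0 + 1) T) (nw u v s' t' r' T) := by
    have := (hE n θ hB (X s' ++ u :: (X t' ++ [v])) (3 :: T) 0 (r0 + 1) r' h3).1 (by
        rw [hs0]
        unfold X
        rw [List.replicate_succ]
        simp) hr hr'
    have e : ∀ k, (X s' ++ u :: (X t' ++ [v])) ++ (List.replicate k 0 ++ (3 :: T)) =
        nw u v s' t' k T := by
      intro k
      unfold nw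
      simp
    rw [e, e] at this
    exact this
  exact θ.trans a1 (θ.trans a2 a3)

theorem ntc_add (a b : ℕ) (L : List ℕ) : List.replicate (a + b) 0 ++ L =
    List.replicate a 0 ++ (List.replicate b 0 ++ L) := by
  rw [List.replicate_add, List.append_assoc]

theorem ntc (hE : ExgStmt) (hC : DcrStmt) (hN : NtdStmt) : NtcStmt := by
  intro n θ hB T0 i j l i' j' l' m1 m2 m0 m3 h
  have h' : RR θ (nw 1 2 i j l T0) (nw 2 1 i' j' l' T0) := h
  obtain ⟨N, rfl⟩ : ∃ N, n = N + 1 := ⟨n - 1, by have := hB.pos; omega⟩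
  have p1 : 1 ≤ T0.count 1 := List.count_pos_iff.2 m1
  have p2 : 1 ≤ T0.count 2 := List.count_pos_iff.2 m2
  obtain ⟨D1, hD1⟩ : ∃ D1, D1 = i + N * (i' + j') := ⟨_, rfl⟩
  obtain ⟨D2, hD2⟩ : ∃ D2, D2 = (i + j) + N * i' := ⟨_, rfl⟩
  have d1 : Dm (N + 1) D1 (RR θ) := by
    obtain ⟨g, hg⟩ : ∃ g : ℕ → List ℕ, g = fun c => if c = 0 then [0] else if c = 1 then [1]
      else if c = 3 then [2] else [] := ⟨_, rfl⟩
    have g0 : g 0 = [0] := by rw [hg]; simp
    have g1 : g 1 = [1] := by rw [hg]; simp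
    have g2 : g 2 = [] := by rw [hg]; simp
    have g3 : g 3 = [2] := by rw [hg]; simp
    have gT : T0.flatMap g = Y (T0.count 1) := by
      apply ntc_T g1
      intro c hc hc1
      rw [hg]
      have q0 : c ≠ 0 := fun e => m0 (e ▸ hc)
      have q3 : c ≠ 3 := fun e => m3 (e ▸ hc)
      simp [q0, q3, hc1]
    have h2 := RR.sub g h'
    rw [ntc_flat, ntc_flat, gT, g1, g2, g3] at h2
    unfold X at h2
    rw [ntc_rep1 g0, ntc_rep1 g0, ntc_rep1 g0, ntc_rep1 g0, ntc_rep1 g0, ntc_rep1 g0] at h2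
    have h3 := hN (N + 1) θ hB i (j + l) (i' + j') l' (T0.count 1) (T0.count 1) p1 p1 (by
      unfold X
      rw [ntc_add, ntc_add]
      simpa only [List.nil_append, List.singleton_append, List.cons_append] using h2)
    rw [hD1]
    exact h3
  have d2 : Dm (N + 1) D2 (RR θ) := by
    obtain ⟨g, hg⟩ : ∃ g : ℕ → List ℕ, g = fun c => if c = 0 then [0] else if c = 2 then [1]
      else if c = 3 then [2] else [] := ⟨_, rfl⟩
    have g0 : g 0 = [0] := by rw [hg]; simp
    have g1 : g 1 = [] := by rw [hg]; simp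
    have g2 : g 2 = [1] := by rw [hg]; simp
    have g3 : g 3 = [2] := by rw [hg]; simp
    have gT : T0.flatMap g = Y (T0.count 2) := by
      apply ntc_T g2
      intro c hc hc1
      rw [hg]
      have q0 : c ≠ 0 := fun e => m0 (e ▸ hc)
      have q3 : c ≠ 3 := fun e => m3 (e ▸ hc)
      simp [q0, q3, hc1]
    have h2 := RR.sub g h'
    rw [ntc_flat, ntc_flat, gT, g1, g2, g3] at h2
    unfold X at h2
    rw [ntc_rep1 g0, ntc_rep1 g0, ntc_rep1 g0, ntc_rep1 g0, ntc_rep1 g0, ntc_rep1 g0] at h2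
    have h3 := hN (N + 1) θ hB (i + j) l i' (j' + l') (T0.count 2) (T0.count 2) p2 p2 (by
      unfold X
      rw [ntc_add, ntc_add]
      simpa only [List.nil_append, List.singleton_append, List.cons_append] using h2)
    rw [hD2]
    exact h3
  have h0 : RR θ (X (i + j + l)) (X (i' + j' + l')) := by
    obtain ⟨g, hg⟩ : ∃ g : ℕ → List ℕ, g = fun c => if c = 0 then [0] else [] := ⟨_, rfl⟩
    have g0 : g 0 = [0] := by rw [hg]; simp
    have g1 : g 1 = [] := by rw [hg]; simp
    have g2 : g 2 = [] := by rw [hg]; simp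
    have g3 : g 3 = [] := by rw [hg]; simp
    have gT : T0.flatMap g = [] := by
      apply ntc_nil
      intro c hc
      rw [hg]
      have q0 : c ≠ 0 := fun e => m0 (e ▸ hc)
      simp [q0]
    have h2 := RR.sub g h'
    rw [ntc_flat, ntc_flat, gT, g1, g2, g3] at h2
    unfold X at h2
    rw [ntc_rep1 g0, ntc_rep1 g0, ntc_rep1 g0, ntc_rep1 g0, ntc_rep1 g0, ntc_rep1 g0] at h2
    unfold X
    rw [Nat.add_assoc i j l, Nat.add_assoc i' j' l']
    simpa using h2
  obtain ⟨P, hP⟩ : ∃ P, P = (N + 1) + N * i := ⟨_, rfl⟩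
  obtain ⟨Q, hQ⟩ : ∃ Q, Q = (N + 1) * (i' + j' + 1) + N * l := ⟨_, rfl⟩
  have h3 : RR θ (nw 1 2 (P + i) j (l + Q) T0) (nw 2 1 (P + i') j' (l' + Q) T0) := by
    obtain ⟨g, hg⟩ : ∃ g : ℕ → List ℕ, g = fun c => if c = 3 then X Q ++ [3] else [c] := ⟨_, rfl⟩
    have g0 : g 0 = [0] := by rw [hg]; simp
    have g1 : g 1 = [1] := by rw [hg]; simp
    have g2 : g 2 = [2] := by rw [hg]; simp
    have g3 : g 3 = X Q ++ [3] := by rw [hg]; simp
    have gT : T0.flatMap g = T0 := by
      apply ntc_id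
      intro c hc
      rw [hg]
      have q3 : c ≠ 3 := fun e => m3 (e ▸ hc)
      simp [q3]
    have h2 := (RR.refl (β := θ) (X P)).append (RR.sub g h')
    rw [ntc_flat, ntc_flat, gT, g1, g2, g3] at h2
    unfold X at h2
    rw [ntc_rep1 g0, ntc_rep1 g0, ntc_rep1 g0, ntc_rep1 g0, ntc_rep1 g0, ntc_rep1 g0] at h2
    unfold nw X
    rw [ntc_add, ntc_add, ntc_add, ntc_add]
    simpa only [List.nil_append, List.singleton_append, List.cons_append, List.append_assoc] using h2
  obtain ⟨w, hw⟩ : ∃ w, w = N * (i' + j') + (N + 1) + N * l := ⟨_, rfl⟩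
  have h4 : RR θ (nw 2 1 (P + i') j' (l' + Q) T0) (nw 2 1 (P + i') j' (i + j + l + w) T0) := by
    have e1 : l' + Q = (i' + j' + l') + w := by rw [hQ, hw]; ring
    have e2 : ∀ A, nw 2 1 (P + i') j' (A + w) T0 =
        (X (P + i') ++ 2 :: (X j' ++ [1])) ++ (X A ++ (X w ++ 3 :: T0)) := by
      intro A
      unfold nw X
      rw [ntc_add A w]
      simp only [List.nil_append, List.cons_append, List.append_assoc]
    rw [e1, e2, e2]
    exact (RR.refl _).append (h0.symm.append (RR.refl _))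
  have hL : RR θ (nw 1 2 (P + i) j (l + Q) T0) (nw 1 2 (N + 1) (N + 1 + j) (N + 1) T0) := by
    apply ntc_norm hE hB m1 m2 (by omega) (by omega) (by omega) (by omega) (by omega)
      (by omega) (by omega) (by rw [hQ, Nat.mul_add]; omega) (by omega)
    · exact ntc_meq (K := i) (by rw [hP]; ring)
    · exact (ntc_meq (K := 1) (by ring)).symm
    · exact ntc_meq (K := i' + j' + l) (by rw [hQ]; ring)
  obtain ⟨b1, hb1⟩ : ∃ b1, b1 = j' + N * D2 + (N + 1) := ⟨_, rfl⟩
  obtain ⟨e1, he1⟩ : ∃ e1, e1 = (i + j + l + w) + N * D1 + (N + 1) := ⟨_, rfl⟩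
  have h5 : RR θ (nw 2 1 (P + i') j' (i + j + l + w) T0)
      (nw 2 1 (P + i') (b1 + D2) (e1 + D1) T0) := by
    apply ntc_norm hE hB m2 m1 (by omega) (by omega) (by omega) (by omega) (by omega)
      (by omega) (by omega) (by omega) (by omega)
    · exact Nat.ModEq.refl _
    · exact (ntc_meq (K := D2 + 1) (by rw [hb1]; ring)).symm
    · exact (ntc_meq (K := D1 + 1) (by rw [he1]; ring)).symm
  have h6 : RR θ (nw 2 1 (P + i') (b1 + D2) (e1 + D1) T0)
      (nw 2 1 (P + i' + D2) b1 (e1 + D1) T0) := by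
    have := hC (N + 1) θ hB D2 d2 [] (1 :: (X (e1 + D1) ++ 3 :: T0)) 0 2 (P + i') b1
      (by omega) (by omega) (by omega) (by simp [m2])
    exact this.symm
  have h7 : RR θ (nw 2 1 (P + i' + D2) b1 (e1 + D1) T0)
      (nw 2 1 (P + i' + D2) (b1 + D1) e1 T0) := by
    have := hC (N + 1) θ hB D1 d1 (X (P + i' + D2) ++ [2]) (3 :: T0) 0 1 b1 e1
      (by omega) (by omega) (by omega) (by simp [m1])
    have e3 : ∀ t r, (X (P + i' + D2) ++ [2]) ++ (List.replicate t 0 ++ 1 ::
        (List.replicate r 0 ++ 3 :: T0)) = nw 2 1 (P + i' + D2) t r T0 := by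
      intro t r
      unfold nw
      simp
    rw [e3, e3] at this
    exact this.symm
  have h8 : RR θ (nw 2 1 (P + i' + D2) (b1 + D1) e1 T0)
      (nw 2 1 (N + 1 + j) (N + 1 + N * j) (N + 1 + j) T0) := by
    apply ntc_norm hE hB m2 m1 (by omega) (by omega) (by omega) (by omega) (by omega)
      (by omega) (by omega) (by omega) (by omega)
    · exact ntc_meq (K := i + i') (by rw [hP, hD2]; ring)
    · exact ntc_meq (K := j' + i + N * i') (by rw [hb1, hD1, hD2]; ring)
    · exact ntc_meq (K := i + l + N * (i' + j') + 1) (by rw [he1, hD1, hw]; ring)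
  exact θ.trans hL.symm (θ.trans h3 (θ.trans h4 (θ.trans h5 (θ.trans h6 (θ.trans h7 h8)))))

end Pool.Agent.MWGR.H1
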