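import Pool.Agent.MWGR.StmtsA

/-!
# Row RT2 of squad MWGR (helper1)
-/

set_option autoImplicit false

namespace Pool.Agent.MWGR.H1

open Pool.Agent.Helper14_MV Pool.Agent.Helper2_MV Pool.Agent.MVO Pool.Agent.MWL Pool.Agent.MWS
  Pool.Agent.MWH

theorem split_unique {α : Type} {t : α} : ∀ {A B C D : List α}, A ++ t :: B = C ++ t :: D →
    t ∉ A → t ∉ C → A = C ∧ B = D
  | [], B, [], D, h, _, _ => by simpa using h
  | [], B, c :: C, D, h, _, hC => by
    exfalso
    simp only [List.nil_append, List.cons_append, List.cons.injEq] at h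
    exact hC (by rw [← h.1]; exact List.mem_cons_self)
  | a :: A, B, [], D, h, hA, _ => by
    exfalso
    simp only [List.nil_append, List.cons_append, List.cons.injEq] at h
    exact hA (by rw [h.1]; exact List.mem_cons_self)
  | a :: A, B, c :: C, D, h, hA, hC => by
    simp only [List.cons_append, List.cons.injEq] at h
    have h1 := split_unique h.2 (fun h' => hA (List.mem_cons_of_mem _ h'))
      (fun h' => hC (List.mem_cons_of_mem _ h'))
    exact ⟨by rw [h.1, h1.1], h1.2⟩

theorem pre_mem {T1 T2 : List ℕ} {s t : ℕ} (hnd : (T1 ++ t :: T2).Nodup)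
    (h : Pre (T1 ++ t :: T2) s t) : s ∈ T1 := by
  obtain ⟨U1, U2, U3, h1⟩ := h
  have h2 : T1 ++ t :: T2 = (U1 ++ s :: U2) ++ t :: U3 := by
    rw [h1]; simp
  have hn1 : t ∉ T1 := by
    intro h'
    have := List.nodup_append.1 hnd
    exact this.2.2 t h' t List.mem_cons_self rfl
  have hn2 : t ∉ U1 ++ s :: U2 := by
    intro h'
    rw [h2] at hnd
    have := List.nodup_append.1 hnd
    exact this.2.2 t h' t List.mem_cons_self rfl
  have h3 := (split_unique h2 hn1 hn2).1
  rw [h3]
  simp

theorem gg_perm {S S' : List ℕ} {g : ℕ → ℕ} (h : S.Perm S') : (GG S g).Perm (GG S' g) :=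
  List.Perm.flatMap_right _ h

theorem gg_cons (x : ℕ) (S : List ℕ) (g : ℕ → ℕ) :
    GG (x :: S) g = List.replicate (g x) x ++ GG S g := by
  unfold GG; rw [List.flatMap_cons]

theorem mem_gg {S : List ℕ} {g : ℕ → ℕ} {c : ℕ} (h : c ∈ GG S g) : c ∈ S := by
  unfold GG at h
  rw [List.mem_flatMap] at h
  obtain ⟨y, hy, hc⟩ := h
  rw [List.eq_of_mem_replicate hc]
  exact hy

theorem filter_perm {H : List ℕ} {O : ℕ → Bool} {x : ℕ} (hH : H.Nodup) (hx : x ∈ H)
    (hO : O x = true) : (H.filter O).Perm (x :: H.filter (Function.update O x false)) := by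
  rw [List.perm_ext_iff_of_nodup (hH.filter _) (List.nodup_cons.2 ⟨by simp, hH.filter _⟩)]
  intro c
  by_cases hc : c = x
  · subst hc
    simp [hx, hO]
  · simp [hc]

theorem rt2 (h1 : PrmStmt) (h2 : ExlStmt) (_ : ExsStmt) (h4 : RapStmt) (h5 : RokStmt) :
    Rt2Stmt := by
  intro n β η hB hle H pre suf T1 T2 x a Λ N hH hT hT' hN hΛ hRE
  have hn : 1 ≤ n := hB.pos
  have h3x : (3 * x + 2) % 3 = 2 := by omega
  have h3x' : (3 * x + 2) / 3 = x := by omega
  have h3a : (3 * a) % 3 = 0 := by omega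
  have h3a' : (3 * a) / 3 = a := by omega
  have hxH : x ∈ H := by
    rcases hT.lt (3 * x + 2) (by simp) with h | h
    · omega
    · rw [h3x'] at h; exact h.2
  have hx1 : 3 * x + 1 ∈ T1 := pre_mem hT.nd (hT.hv x hxH)
  -- the open function
  obtain ⟨O, hO⟩ : ∃ O, O = opn O0 T1 := ⟨_, rfl⟩
  have hOx : O x = true := by
    rw [hO]
    exact (h4.2.2 H pre suf T1 _ hT x hxH).2 ⟨hx1, by simp⟩
  obtain ⟨O', hO'⟩ : ∃ O', O' = Function.update O x false := ⟨_, rfl⟩
  obtain ⟨R1, hR1⟩ : ∃ R, R = real n H Λ N O0 T1 := ⟨_, rfl⟩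
  obtain ⟨R2, hR2⟩ : ∃ R, R = real n H Λ N O' T2 := ⟨_, rfl⟩
  obtain ⟨S, hS⟩ : ∃ S, S = H.filter O := ⟨_, rfl⟩
  obtain ⟨S', hS'⟩ : ∃ S, S = H.filter O' := ⟨_, rfl⟩
  obtain ⟨m, hm⟩ : ∃ m, m = n + N x := ⟨_, rfl⟩
  have hxR1 : x ∈ R1 := by
    rw [hR1]; exact (h5 n H Λ N hn hH).2.2.1 T1 O0 x hx1
  have hSp : S.Perm (x :: S') := by
    rw [hS, hS', hO']; exact filter_perm hH hxH hOx
  have hS'H : ∀ c ∈ S', c ∈ H := by
    intro c hc; rw [hS'] at hc; exact List.mem_of_mem_filter hc
  have hSH : ∀ c ∈ S, c ∈ H := by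
    intro c hc; rw [hS] at hc; exact List.mem_of_mem_filter hc
  -- the two words
  have e0 : real n H Λ N O0 (T1 ++ (3 * x + 2) :: (3 * a) :: T2) =
      R1 ++ (List.replicate m x ++ (GG S' (fun y => n + Λ y a) ++
        a :: (GG S' (fun y => n + (n - 1) * Λ y a) ++ R2))) := by
    rw [h4.1, ← hR1, ← hO]
    have : real n H Λ N O ((3 * x + 2) :: (3 * a) :: T2) =
        List.replicate (n + N x) x ++ (outL n H Λ O' a ++ real n H Λ N O' T2) := by
      rw [real, real, hO']
      simp [h3x, h3x', h3a, h3a']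
    rw [this, ← hR2, outL, ← hS', hm]
    simp
  have e1 : real n H Λ N O0 (T1 ++ (3 * a) :: (3 * x + 2) :: T2) =
      R1 ++ (GG S (fun y => n + Λ y a) ++ a :: (GG S (fun y => n + (n - 1) * Λ y a) ++
        (List.replicate m x ++ R2))) := by
    rw [h4.1, ← hR1, ← hO]
    have : real n H Λ N O ((3 * a) :: (3 * x + 2) :: T2) =
        outL n H Λ O a ++ (List.replicate (n + N x) x ++ real n H Λ N O' T2) := by
      rw [real, real, hO']
      simp [h3x, h3x', h3a, h3a']
    rw [this, ← hR2, outL, ← hS, hm]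
    simp
  have k0 := (h5 n H Λ N hn hH).1 pre suf _ hT
  have k1 := (h5 n H Λ N hn hH).1 pre suf _ hT'
  rw [e0] at k0
  rw [e1] at k1
  rw [e0, e1]
  -- from the left: the power of `x` moves to `a`
  obtain ⟨k2, r2⟩ := h1 n β hB H pre suf R1
    (List.replicate m x ++ GG S' (fun y => n + Λ y a)) (GG S' (fun y => n + Λ y a) ++ List.replicate m x)
    (a :: (GG S' (fun y => n + (n - 1) * Λ y a) ++ R2)) (by simpa using k0)
    (by
      intro c hc
      rcases List.mem_append.1 hc with hc | hc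
      · rw [List.eq_of_mem_replicate hc]; exact hxH
      · exact hS'H _ (mem_gg hc)) List.perm_append_comm
  -- insertion of `x ^ n` behind `a`
  have hm2 : m = (m - 2) + 1 + 1 := by omega
  have hrep : List.replicate m x = List.replicate (m - 2) x ++ [x, x] := by
    conv_lhs => rw [hm2]
    rw [List.replicate_succ', List.replicate_succ']
    simp
  have r3 := hRE (R1 ++ (GG S' (fun y => n + Λ y a) ++ List.replicate (m - 2) x))
    (GG S' (fun y => n + (n - 1) * Λ y a) ++ R2) (by rw [hrep] at k2; simpa using k2)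
  -- from the right
  obtain ⟨k4, r4⟩ := h1 n β hB H pre suf R1 (GG S (fun y => n + Λ y a))
    (GG S' (fun y => n + Λ y a) ++ List.replicate (n + Λ x a) x)
    (a :: (GG S (fun y => n + (n - 1) * Λ y a) ++ (List.replicate m x ++ R2))) k1
    (fun c hc => hSH _ (mem_gg hc))
    ((gg_perm hSp).trans (by rw [gg_cons]; exact List.perm_append_comm))
  obtain ⟨k5, r5⟩ := h1 n β hB H pre suf
    (R1 ++ (GG S' (fun y => n + Λ y a) ++ (List.replicate (n + Λ x a) x ++ [a])))
    (GG S (fun y => n + (n - 1) * Λ y a) ++ List.replicate m x)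
    (List.replicate (n + (n - 1) * Λ x a + m) x ++ GG S' (fun y => n + (n - 1) * Λ y a))
    R2 (by simpa using k4)
    (by
      intro c hc
      rcases List.mem_append.1 hc with hc | hc
      · exact hSH _ (mem_gg hc)
      · rw [List.eq_of_mem_replicate hc]; exact hxH)
    (by
      refine (List.Perm.append_right _ (gg_perm hSp)).trans ?_
      have hsp : List.replicate (n + (n - 1) * Λ x a + m) x =
          List.replicate (n + (n - 1) * Λ x a) x ++ List.replicate m x :=
        List.replicate_add _ _ _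
      rw [gg_cons, hsp, List.append_assoc, List.append_assoc]
      exact List.Perm.append_left _ List.perm_append_comm)
  obtain ⟨k6, r6⟩ := h2 n β hB H pre suf (R1 ++ GG S' (fun y => n + Λ y a))
    (a :: (List.replicate (n + (n - 1) * Λ x a + m) x ++
      (GG S' (fun y => n + (n - 1) * Λ y a) ++ R2))) x (n + Λ x a) m (by simpa using k5) hxH
    (List.mem_append_left _ hxR1)
    (by
      refine List.mem_cons_of_mem _ (List.mem_append_left _ ?_)
      rw [List.mem_replicate]
      exact ⟨by omega, rfl⟩)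
    (by rw [hm]; exact Nat.ModEq.add_left _ hΛ)
  have hmod : n + (n - 1) * Λ x a + m - 1 ≡ n - 1 [MOD n] := by
    have q1 : n + (n - 1) * Λ x a + m ≡ n [MOD n] := by
      have q2 : n + (n - 1) * Λ x a + m ≡ n + (n - 1) * N x + (n + N x) [MOD n] := by
        rw [hm]
        exact Nat.ModEq.add_right _ (Nat.ModEq.add_left _ (Nat.ModEq.mul_left _ hΛ))
      refine q2.trans ?_
      have q3 : n + (n - 1) * N x + (n + N x) = n * (2 + N x) := by
        obtain ⟨n', rfl⟩ : ∃ n', n = n' + 1 := ⟨n - 1, by omega⟩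
        simp only [Nat.add_sub_cancel]
        ring
      rw [q3, Nat.ModEq, Nat.mul_mod_right, Nat.mod_self]
    have q4 : n + (n - 1) * Λ x a + m - 1 + 1 ≡ n - 1 + 1 [MOD n] := by
      rw [Nat.sub_add_cancel (by omega), Nat.sub_add_cancel hn]
      exact q1
    exact Nat.ModEq.add_right_cancel' 1 q4
  have hrep2 : List.replicate (n + (n - 1) * Λ x a + m) x =
      List.replicate (n + (n - 1) * Λ x a + m - 1) x ++ [x] := by
    rw [← List.replicate_succ', Nat.sub_add_cancel (by omega)]
  have hrep3 : List.replicate n x = List.replicate (n - 1) x ++ [x] := by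
    rw [← List.replicate_succ', Nat.sub_add_cancel hn]
  obtain ⟨_, r7⟩ := h2 n β hB H pre suf
    (R1 ++ (GG S' (fun y => n + Λ y a) ++ (List.replicate m x ++ [a])))
    (x :: (GG S' (fun y => n + (n - 1) * Λ y a) ++ R2)) x
    (n + (n - 1) * Λ x a + m - 1) (n - 1) (by rw [hrep2] at k6; simpa using k6) hxH
    (List.mem_append_left _ hxR1) List.mem_cons_self hmod
  rw [hrep2] at r6
  -- assembly
  have tr : ∀ {u v w : List ℕ}, RR η u v → RR η v w → RR η u w := fun h h' => η.trans h h'
  have s2 : RR η (Wd pre suf (R1 ++ (List.replicate m x ++ (GG S' (fun y => n + Λ y a) ++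
      a :: (GG S' (fun y => n + (n - 1) * Λ y a) ++ R2)))))
      (Wd pre suf (R1 ++ (GG S' (fun y => n + Λ y a) ++ (List.replicate m x ++
        a :: (GG S' (fun y => n + (n - 1) * Λ y a) ++ R2))))) := by
    have h : RR η _ _ := hle _ _ r2
    simpa using h
  have s3 : RR η (Wd pre suf (R1 ++ (GG S' (fun y => n + Λ y a) ++ (List.replicate m x ++
        a :: (GG S' (fun y => n + (n - 1) * Λ y a) ++ R2)))))
      (Wd pre suf (R1 ++ (GG S' (fun y => n + Λ y a) ++ (List.replicate m x ++
        a :: (List.replicate n x ++ (GG S' (fun y => n + (n - 1) * Λ y a) ++ R2)))))) := by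
    rw [hrep]
    simpa using r3
  have s7 : RR η (Wd pre suf (R1 ++ (GG S' (fun y => n + Λ y a) ++ (List.replicate m x ++
        a :: (List.replicate (n + (n - 1) * Λ x a + m) x ++
          (GG S' (fun y => n + (n - 1) * Λ y a) ++ R2))))))
      (Wd pre suf (R1 ++ (GG S' (fun y => n + Λ y a) ++ (List.replicate m x ++
        a :: (List.replicate n x ++ (GG S' (fun y => n + (n - 1) * Λ y a) ++ R2)))))) := by
    have h : RR η _ _ := hle _ _ r7
    rw [hrep2, hrep3]
    simpa using h
  have s6 : RR η (Wd pre suf (R1 ++ (GG S' (fun y => n + Λ y a) ++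
        (List.replicate (n + Λ x a) x ++ a :: (List.replicate (n + (n - 1) * Λ x a + m) x ++
          (GG S' (fun y => n + (n - 1) * Λ y a) ++ R2))))))
      (Wd pre suf (R1 ++ (GG S' (fun y => n + Λ y a) ++ (List.replicate m x ++
        a :: (List.replicate (n + (n - 1) * Λ x a + m) x ++
          (GG S' (fun y => n + (n - 1) * Λ y a) ++ R2)))))) := by
    have h : RR η _ _ := hle _ _ r6
    rw [hrep2]
    simpa using h
  have s5 : RR η (Wd pre suf (R1 ++ (GG S' (fun y => n + Λ y a) ++
        (List.replicate (n + Λ x a) x ++ a :: (GG S (fun y => n + (n - 1) * Λ y a) ++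
          (List.replicate m x ++ R2))))))
      (Wd pre suf (R1 ++ (GG S' (fun y => n + Λ y a) ++
        (List.replicate (n + Λ x a) x ++ a :: (List.replicate (n + (n - 1) * Λ x a + m) x ++
          (GG S' (fun y => n + (n - 1) * Λ y a) ++ R2)))))) := by
    have h : RR η _ _ := hle _ _ r5
    simpa using h
  have s4 : RR η (Wd pre suf (R1 ++ (GG S (fun y => n + Λ y a) ++
        a :: (GG S (fun y => n + (n - 1) * Λ y a) ++ (List.replicate m x ++ R2)))))
      (Wd pre suf (R1 ++ (GG S' (fun y => n + Λ y a) ++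
        (List.replicate (n + Λ x a) x ++ a :: (GG S (fun y => n + (n - 1) * Λ y a) ++
          (List.replicate m x ++ R2)))))) := by
    have h : RR η _ _ := hle _ _ r4
    simpa using h
  exact tr s2 (tr s3 (RR.symm (tr s4 (tr s5 (tr s6 s7)))))

end Pool.Agent.MWGR.H1
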